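import Mathlib
import Pool.Agent.H.MP_c4e285_co.A

set_option autoImplicit false

namespace Pool.Agent.Results.MP_c4e285_co.No

open Pool.Agent.H.MP_c4e285_co Finset Filter Topology

def PosDensity {G : Type} [AddCommGroup G] [DecidableEq G] (A : Set G) : Prop :=
  ∃ F : ℕ → Finset G, (∀ n, (F n).Nonempty) ∧
    (∀ g : G, Tendsto (fun n => ((symmDiff ((F n).image (g + ·)) (F n)).card : ℝ) / (F n).card)
      atTop (nhds 0)) ∧
    ∃ δ : ℝ, 0 < δ ∧ ∃ᶠ n in atTop, δ ≤ ((A ∩ F n).ncard : ℝ) / (F n).card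

theorem result : ∃ (G : Type) (_ : AddCommGroup G) (_ : DecidableEq G) (_ : Countable G)
    (B C : Set G) (r : ℕ) (A : Fin r → Set G), 1 ≤ r ∧ PosDensity B ∧ PosDensity C ∧
    Pairwise (fun i j => Disjoint (A i) (A j)) ∧ ⋃ i, A i = Set.univ ∧
    ∀ c ∈ C, ∀ (i : Fin r) (k : ℕ) (χ : Fin k → AddChar G Circle) (η : ℝ), 0 < η →
      ¬ {g : G | ∀ j, ‖(χ j g : ℂ) - 1‖ < η} ⊆ {g : G | ∃ b ∈ B, ∃ a ∈ A i, g = b + c + a} := by
  classical
  have : ∀ n, Fintype (S n) := fun n => Fintype.ofFinite _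
  let F := fun n => (univ : Finset (S n)).map (Function.Embedding.subtype _)
  have mF : ∀ n x, x ∈ F n ↔ x ∈ S n := fun n x => by simp [F]
  have cF : ∀ n, (F n).card = Fintype.card (S n) := fun n => by simp [F]
  have nF : ∀ n, (F n).Nonempty := fun n => ⟨0, (mF _ _).2 (zero_mem _)⟩
  have pF : ∀ n, (0 : ℝ) < (F n).card := fun n => Nat.cast_pos.2 (nF n).card_pos
  obtain ⟨σ, h⟩ : ∃ σ, ∃ᶠ n in atTop, (1 / 4 : ℝ) ≤ ((B σ ∩ F n).ncard : ℝ) / (F n).card := by
    by_contra h
    simp only [not_exists, not_frequently, not_le, div_lt_iff₀ (pF _)] at h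
    obtain ⟨n, h0, h1⟩ := ((h 0).and (h 1)).exists
    have a := many n
    have b : (univ.filter fun x : S n => x.1 ∈ B 0 ∪ B 1).card ≤
        (B 0 ∩ F n).ncard + (B 1 ∩ F n).ncard := by
      refine le_trans ?_ (Set.ncard_union_le _ _)
      rw [← Set.ncard_coe_finset, ← Set.union_inter_distrib_right]
      exact Set.ncard_le_ncard_of_injOn Subtype.val (fun x hx => ⟨(mem_filter.1 hx).2,
        (mF _ _).2 x.2⟩) Subtype.val_injective.injOn ((F n).finite_toSet.inter_of_right _)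
    rw [← cF] at a
    rify at b
    linarith
  have fo : ∀ g : G, Tendsto (fun n => ((symmDiff ((F n).image (g + ·)) (F n)).card : ℝ) /
      (F n).card) atTop (nhds 0) := fun g => by
    obtain ⟨m, hm⟩ := g.2
    refine tendsto_const_nhds.congr' ((eventually_ge_atTop m).mono fun n l => ?_)
    have t : g ∈ S n := hm.mono l
    have : (F n).image (g + ·) = F n := Finset.ext fun x => by
      simp only [mem_image, mF]
      exact ⟨fun ⟨y, hy, e⟩ => e ▸ add_mem t hy, fun hx => ⟨x - g, sub_mem hx t, by simp⟩⟩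
    simp [this]
  refine ⟨G, inferInstance, inferInstance, inferInstance, B σ, Set.univ, 2, fun i => {x | f x = i},
    one_le_two, ⟨F, nF, fo, _, by norm_num, h⟩, ⟨F, nF, fo, 1, one_pos, .of_forall fun n => by
      simp [div_self (pF n).ne']⟩,
    fun i j ij => Set.disjoint_left.2 fun x (a : _ = _) (b : _ = _) => ij (a.symm.trans b),
    Set.eq_univ_of_forall fun x => Set.mem_iUnion.2 ⟨f x, rfl⟩, fun c _ i k χ η hη e => ?_⟩
  have t : ∀ x : G, x + x = 0 := fun x => Subtype.ext (funext fun p => CharTwo.add_self_eq_zero _)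
  let j : ZMod 2 := i
  obtain ⟨n, Q, hQ, hs⟩ := dense χ (c + K (j + σ + 1))
  obtain ⟨b, hb, a, ha, e⟩ := e (a := ∑ q ∈ Q, dl (n + 1) q + (c + K (j + σ + 1))) fun l => by
    rw [AddChar.map_add_eq_mul, hs, ← AddChar.map_add_eq_mul, t]
    simpa
  have := avoid hb n Q hQ (j + σ + 1)
  rw [show b + ∑ q ∈ Q, dl (n + 1) q + K (j + σ + 1) = a by
    linear_combination (norm := abel1) e + t b, show f a = j from ha] at this
  exact (by decide : ∀ s j : ZMod 2, j ≠ s + (j + s + 1)) _ _ this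

end Pool.Agent.Results.MP_c4e285_co.No
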